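import Pool.Agent.Q216.RK.Basic

/-!
# The statistics of a good sample find every short term of the context
-/

set_option autoImplicit false

namespace Pool.Agent.Q128.RK

open Pool.Agent.Q216.RK Finset

variable {n : ℕ}

theorem satB_app (K L : Cj) (x : List Bool) : satB (K ++ L) x = (satB K x && satB L x) := by
  unfold satB
  exact List.all_append

theorem satB_cons (l : ℕ × Bool) (K : Cj) (x : List Bool) :
    satB (l :: K) x = (litB x l && satB K x) := by
  unfold satB
  exact List.all_cons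

theorem satB_nil (x : List Bool) : satB [] x = true := rfl

theorem litB_ofFn (x : Pt n) (j : Fin n) (c : Bool) :
    litB (List.ofFn x) ((j : ℕ), c) = decide (x j = c) := by
  unfold litB
  simp

theorem adf_cast (a b : ℕ) : (adf a b : ℝ) = |(a : ℝ) - b| := by
  unfold adf
  rcases le_total a b with h | h
  · rw [Nat.sub_eq_zero_of_le h, zero_add, Nat.cast_sub h, abs_sub_comm,
      abs_of_nonneg (sub_nonneg.2 (by exact_mod_cast h))]
  · rw [Nat.sub_eq_zero_of_le h, add_zero, Nat.cast_sub h,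
      abs_of_nonneg (sub_nonneg.2 (by exact_mod_cast h))]

theorem dimS_smp {N : ℕ} (hN : 1 ≤ N) (F : Finset (Tm n)) (xs : Fin N → Pt n) :
    dimS (smp F xs) = n := by
  obtain ⟨N', rfl⟩ : ∃ N', N = N' + 1 := ⟨N - 1, by omega⟩
  unfold dimS smp
  rw [List.ofFn_succ]
  simp

theorem cnt_est {N : ℕ} (h4 : S_BRI) (h5 : S_CNT) (F : Finset (Tm n)) (xs : Fin N → Pt n) (τ : ℝ)
    (hG : Good τ F xs) (K : Cj) (b : Bool) :
    |(cnt (smp F xs) K b : ℝ) / N -
      Ex (fun x => ind (satB K (List.ofFn x)) * ind (decide (on F x = b)))| ≤ τ := by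
  rcases h4.2.1 n K with h | ⟨T, hT⟩
  · have h0 : cnt (smp F xs) K b = 0 := by
      unfold cnt smp
      rw [List.length_eq_zero_iff, List.filter_eq_nil_iff]
      intro p hp
      rw [List.mem_ofFn] at hp
      obtain ⟨j, rfl⟩ := hp
      simp [h]
    have h1 : Ex (fun x : Pt n => ind (satB K (List.ofFn x)) * ind (decide (on F x = b))) = 0 := by
      rw [← Ex_zero (n := n)]
      exact Ex_congr fun x => by rw [h, ind_false, zero_mul]
    rw [h0, h1]
    simpa using (abs_nonneg _).trans (hG (fun _ => none) true)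
  · rw [h5 n N F xs K T b hT]
    have h1 : Ex (fun x : Pt n => ind (satB K (List.ofFn x)) * ind (decide (on F x = b))) =
        prb F T b := by
      unfold prb
      exact Ex_congr fun x => by rw [hT]
    rw [h1]
    exact hG T b

theorem ex_ctx (F F' : Finset (Tm n)) (π : Cj) (P : Tm n)
    (hP : ∀ x : Pt n, satB π (List.ofFn x) = satT P x)
    (hF : ∀ x, satT P x = true → on F x = on F' x) (hd : ∀ T ∈ F', Disjoint (vars T) (vars P))
    (L : Cj) (hL : Dep (vars P)ᶜ (fun x => ind (satB L (List.ofFn x)))) :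
    Ex (fun x => ind (satB (π ++ L) (List.ofFn x)) * ind (decide (on F x = true))) =
      (1 / 2) ^ len P * Ex (fun x => ind (on F' x) * ind (satB L (List.ofFn x))) := by
  have hon : Dep (vars P)ᶜ (fun x => ind (on F' x)) := dep_on fun T hT => by
    intro j hj
    rw [Finset.mem_compl]
    exact Finset.disjoint_left.1 (hd T hT) hj
  rw [← Ex_satT P, ← Ex_ind (dep_satT P) (hon.mul hL) disjoint_compl_right]
  refine Ex_congr fun x => ?_
  rw [satB_app, hP, ind_and]
  by_cases hx : satT P x = true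
  · rw [hF x hx]
    cases on F' x <;> simp [ind]
  · rw [Bool.not_eq_true] at hx
    rw [hx, ind_false]
    ring

theorem dep_satB (L : Cj) (A : Finset (Fin n))
    (h : ∀ l ∈ L, ∃ j : Fin n, l.1 = (j : ℕ) ∧ j ∈ A) :
    Dep A (fun x : Pt n => ind (satB L (List.ofFn x))) := by
  intro x y hxy
  show ind (satB L (List.ofFn x)) = ind (satB L (List.ofFn y))
  congr 1
  unfold satB
  rw [Bool.eq_iff_iff, List.all_eq_true, List.all_eq_true]
  refine forall₂_congr fun l hl => ?_
  obtain ⟨j, hj, hjA⟩ := h l hl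
  obtain ⟨l1, l2⟩ := l
  simp only at hj
  subst hj
  rw [litB_ofFn, litB_ofFn, hxy j hjA]

/-- the bit of the literal -/
def sv (S : Smp) (π Q : Cj) (i j : ℕ) : Bool :=
  decide (decide (cnt S (π ++ Q ++ [(i, false)]) true < cnt S (π ++ Q ++ [(i, true)]) true) =
    decide (agr S (π ++ Q) i j false < agr S (π ++ Q) i j true))

theorem mem_lam (S : Smp) (m : ℕ) (π Q : Cj) (i : ℕ) (l : ℕ × Bool) :
    l ∈ lam S m π Q i ↔ l.1 < m ∧ l.1 ≠ i ∧ hasVar π l.1 = false ∧
      adf (cnt S (π ++ Q ++ [(i, true)]) true) (cnt S (π ++ Q ++ [(i, false)]) true) ≤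
        2 * adf (agr S (π ++ Q) i l.1 true) (agr S (π ++ Q) i l.1 false) ∧
      l.2 = sv S π Q i l.1 := by
  unfold lam
  rw [List.mem_map]
  constructor
  · rintro ⟨j, hj, rfl⟩
    rw [List.mem_filter, List.mem_range] at hj
    obtain ⟨h1, h2⟩ := hj
    simp only [Bool.and_eq_true, Bool.not_eq_true', decide_eq_false_iff_not, decide_eq_true_eq] at h2
    exact ⟨h1, h2.1.1, h2.1.2, h2.2, rfl⟩
  · rintro ⟨h1, h2, h3, h4, h5⟩
    refine ⟨l.1, ?_, ?_⟩
    · rw [List.mem_filter, List.mem_range]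
      refine ⟨h1, ?_⟩
      simp only [Bool.and_eq_true, Bool.not_eq_true', decide_eq_false_iff_not, decide_eq_true_eq]
      exact ⟨⟨h2, h3⟩, h4⟩
    · exact Prod.ext rfl h5.symm

theorem lam_nodup (S : Smp) (m : ℕ) (π Q : Cj) (i : ℕ) :
    ((lam S m π Q i).map Prod.fst).Nodup := by
  unfold lam
  rw [List.map_map]
  have h : (Prod.fst ∘ fun j => ((j, decide (decide (cnt S (π ++ Q ++ [(i, false)]) true <
      cnt S (π ++ Q ++ [(i, true)]) true) =
    decide (agr S (π ++ Q) i j false < agr S (π ++ Q) i j true))) : ℕ × Bool)) = id := by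
    funext j
    rfl
  rw [h, List.map_id]
  exact List.nodup_range.filter _

theorem lam_length (S : Smp) (m : ℕ) (π Q : Cj) (i : ℕ) (Y : Finset (Fin n))
    (h : ∀ l ∈ lam S m π Q i, ∃ j : Fin n, l.1 = (j : ℕ) ∧ j ∈ Y) :
    (lam S m π Q i).length ≤ Y.card := by
  classical
  rw [← List.length_map (f := Prod.fst), ← List.toFinset_card_of_nodup (lam_nodup S m π Q i)]
  refine le_trans (Finset.card_le_card (t := Finset.image (fun j : Fin n => (j : ℕ)) Y) ?_) Finset.card_image_le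
  intro x hx
  rw [List.mem_toFinset, List.mem_map] at hx
  obtain ⟨l, hl, rfl⟩ := hx
  obtain ⟨j, hj, hjY⟩ := h l hl
  exact Finset.mem_image.2 ⟨j, hjY, hj.symm⟩

/-- the numbers -/
theorem num_main (e D B cF cT N : ℕ) (p o τ R x c : ℝ) (he : 1 ≤ e) (hN : 1 ≤ N) (hτ0 : 0 < τ)
    (hτ : τ * R = 1) (hR : 1024 * e * 2 ^ D * 4 ^ B ≤ R) (hp : (1 / 2) ^ D ≤ p) (hp1 : p ≤ 1)
    (ho : 0 ≤ o) (hcnt : ((cF : ℝ) + cT) < 8 * e * cF) (h1 : |(cF : ℝ) / N - p * o| ≤ τ)
    (h2 : |(cT : ℝ) / N - (p - p * o)| ≤ τ) (hx : 1 / 2 * x * o ≤ c) (hxB : (1 / 4) ^ B ≤ x) :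
    32 * τ < p * c ∧ 1024 * τ ≤ (1 / 4) ^ B := by
  have he' : (1 : ℝ) ≤ e := by exact_mod_cast he
  have hN' : (0 : ℝ) < N := by exact_mod_cast hN
  have hp0 : 0 < p := lt_of_lt_of_le (by positivity) hp
  have hq0 : (0 : ℝ) < (1 / 4) ^ B := by positivity
  have hD0 : (0 : ℝ) < (1 / 2) ^ D := by positivity
  have e1 : (1 / 2 : ℝ) ^ D * 2 ^ D = 1 := by rw [← mul_pow]; norm_num
  have e2 : (1 / 4 : ℝ) ^ B * 4 ^ B = 1 := by rw [← mul_pow]; norm_num
  have h3 : τ * (1024 * e * 2 ^ D * 4 ^ B) ≤ 1 := by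
    rw [← hτ]
    exact mul_le_mul_of_nonneg_left hR hτ0.le
  have h4 : 1024 * e * τ ≤ p * (1 / 4) ^ B := by
    have h5 : 1024 * e * τ = τ * (1024 * e * 2 ^ D * 4 ^ B) * ((1 / 2) ^ D * (1 / 4) ^ B) := by
      calc 1024 * (e : ℝ) * τ = 1024 * e * τ * ((1 / 2 : ℝ) ^ D * 2 ^ D) *
            ((1 / 4 : ℝ) ^ B * 4 ^ B) := by rw [e1, e2]; ring
        _ = _ := by ring
    rw [h5]
    calc τ * (1024 * e * 2 ^ D * 4 ^ B) * ((1 / 2) ^ D * (1 / 4) ^ B)
        ≤ 1 * ((1 / 2) ^ D * (1 / 4) ^ B) := mul_le_mul_of_nonneg_right h3 (by positivity)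
      _ = (1 / 2) ^ D * (1 / 4) ^ B := one_mul _
      _ ≤ p * (1 / 4) ^ B := mul_le_mul_of_nonneg_right hp hq0.le
  have hq1 : ((1 : ℝ) / 4) ^ B ≤ 1 := pow_le_one₀ (by norm_num) (by norm_num)
  have h5 : 1024 * e * τ ≤ p := h4.trans (by nlinarith)
  have h6 : 1024 * τ ≤ 1024 * e * τ := by nlinarith
  have h7 : p < 16 * e * (p * o) := by
    have h8 : ((cF : ℝ) / N + cT / N) < 8 * e * (cF / N) := by
      rw [← add_div, ← mul_div_assoc]
      exact div_lt_div_of_pos_right hcnt hN'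
    have h9 := abs_le.1 h1
    have h10 := abs_le.1 h2
    have h11 : (e : ℝ) * (cF / N) ≤ e * (p * o + τ) :=
      mul_le_mul_of_nonneg_left (by linarith [h9.2]) (by linarith)
    have h12 : p - 2 * τ ≤ (cF : ℝ) / N + cT / N := by linarith [h9.1, h10.1]
    nlinarith
  refine ⟨?_, ?_⟩
  · have hc : p * (1 / 2 * (1 / 4) ^ B * o) ≤ p * c := by
      refine mul_le_mul_of_nonneg_left (le_trans ?_ hx) hp0.le
      exact mul_le_mul_of_nonneg_right (mul_le_mul_of_nonneg_left hxB (by norm_num)) ho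
    have h13 : 32 * e * (32 * τ) < 32 * e * (p * c) := by
      calc 32 * e * (32 * τ) = 1024 * e * τ := by ring
        _ ≤ p * (1 / 4) ^ B := h4
        _ < 16 * e * (p * o) * (1 / 4) ^ B := mul_lt_mul_of_pos_right h7 hq0
        _ = 32 * e * (p * (1 / 2 * (1 / 4) ^ B * o)) := by ring
        _ ≤ 32 * e * (p * c) := mul_le_mul_of_nonneg_left hc (by positivity)
    exact lt_of_mul_lt_mul_left h13 (by positivity)
  · have h14 : p * (1 / 4) ^ B ≤ (1 / 4) ^ B := by nlinarith
    linarith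

/-- the estimates of the two statistics -/
theorem stat_est {N : ℕ} (h4 : S_BRI) (h5 : S_CNT) (F F' : Finset (Tm n)) (xs : Fin N → Pt n)
    (τ : ℝ) (hG : Good τ F xs) (π : Cj) (P Q : Tm n)
    (hP : ∀ x : Pt n, satB π (List.ofFn x) = satT P x)
    (hF : ∀ x, satT P x = true → on F x = on F' x) (hd : ∀ T ∈ F', Disjoint (vars T) (vars P))
    (hQ : Disjoint (vars Q) (vars P)) (i : Fin n) (hi : i ∉ vars P) :
    |((cnt (smp F xs) (π ++ tl Q ++ [((i : ℕ), true)]) true : ℝ) -
        cnt (smp F xs) (π ++ tl Q ++ [((i : ℕ), false)]) true) / N -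
        (1 / 2) ^ len P * C0 F' Q i| ≤ 2 * τ ∧
    ∀ j : Fin n, j ∉ vars P →
      |((agr (smp F xs) (π ++ tl Q) i j true : ℝ) - agr (smp F xs) (π ++ tl Q) i j false) / N -
        (1 / 2) ^ len P * C1 F' Q i j| ≤ 4 * τ := by
  obtain ⟨hQs, -, ⟨-, hQlt⟩, hQm⟩ := h4.2.2.1 n Q
  have hQl : ∀ l ∈ tl Q, ∃ j : Fin n, l.1 = (j : ℕ) ∧ j ∈ (vars P)ᶜ := by
    intro l hl
    have h10 := hQlt l hl
    refine ⟨⟨l.1, h10⟩, rfl, ?_⟩
    rw [Finset.mem_compl]
    refine Finset.disjoint_left.1 hQ (mem_vars.2 ?_)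
    rw [(hQm ⟨l.1, h10⟩ l.2).1 hl]
    simp
  have hG1 : ∀ L : Cj, (∀ l ∈ L, ∃ j : Fin n, l.1 = (j : ℕ) ∧ j ∈ (vars P)ᶜ) →
      |(cnt (smp F xs) (π ++ tl Q ++ L) true : ℝ) / N -
        (1 / 2) ^ len P * Ex (fun x => ind (on F' x) * ind (satB (tl Q ++ L) (List.ofFn x)))| ≤
        τ := by
    intro L hL
    have hdep : Dep (vars P)ᶜ (fun x => ind (satB (tl Q ++ L) (List.ofFn x))) := by
      refine dep_satB _ _ fun l hl => ?_
      rw [List.mem_append] at hl
      exact hl.elim (hQl l) (hL l)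
    rw [List.append_assoc, ← ex_ctx F F' π P hP hF hd (tl Q ++ L) hdep]
    exact cnt_est h4 h5 F xs τ hG _ true
  have hone : ∀ (j : Fin n) (c : Bool), j ∉ vars P → ∀ l ∈ [((j : ℕ), c)],
      ∃ j : Fin n, l.1 = (j : ℕ) ∧ j ∈ (vars P)ᶜ := by
    intro j c hj l hl
    rw [List.mem_singleton] at hl
    subst hl
    exact ⟨j, rfl, Finset.mem_compl.2 hj⟩
  have htwo : ∀ (j : Fin n) (c d : Bool), j ∉ vars P → ∀ l ∈ [((i : ℕ), c), ((j : ℕ), d)],
      ∃ j : Fin n, l.1 = (j : ℕ) ∧ j ∈ (vars P)ᶜ := by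
    intro j c d hj l hl
    rw [List.mem_cons, List.mem_singleton] at hl
    rcases hl with rfl | rfl
    · exact ⟨i, rfl, Finset.mem_compl.2 hi⟩
    · exact ⟨j, rfl, Finset.mem_compl.2 hj⟩
  refine ⟨?_, fun j hj => ?_⟩
  · have q1 := hG1 [((i : ℕ), true)] (hone i true hi)
    have q2 := hG1 [((i : ℕ), false)] (hone i false hi)
    have hC : Ex (fun x : Pt n => ind (on F' x) *
          ind (satB (tl Q ++ [((i : ℕ), true)]) (List.ofFn x))) -
        Ex (fun x : Pt n => ind (on F' x) *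
          ind (satB (tl Q ++ [((i : ℕ), false)]) (List.ofFn x))) = C0 F' Q i := by
      unfold C0
      rw [← Ex_sub]
      refine Ex_congr fun x => ?_
      simp only [satB_app, satB_cons, satB_nil, litB_ofFn, hQs x]
      cases on F' x <;> cases satT Q x <;> cases x i <;> simp [ind, sg]
    rw [← hC, sub_div, mul_sub]
    rw [abs_le] at q1 q2 ⊢
    constructor <;> linarith [q1.1, q1.2, q2.1, q2.2]
  · have q1 := hG1 [((i : ℕ), true), ((j : ℕ), true)] (htwo j true true hj)
    have q2 := hG1 [((i : ℕ), false), ((j : ℕ), false)] (htwo j false false hj)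
    have q3 := hG1 [((i : ℕ), true), ((j : ℕ), false)] (htwo j true false hj)
    have q4 := hG1 [((i : ℕ), false), ((j : ℕ), true)] (htwo j false true hj)
    have hC : Ex (fun x : Pt n => ind (on F' x) *
          ind (satB (tl Q ++ [((i : ℕ), true), ((j : ℕ), true)]) (List.ofFn x))) +
        Ex (fun x : Pt n => ind (on F' x) *
          ind (satB (tl Q ++ [((i : ℕ), false), ((j : ℕ), false)]) (List.ofFn x))) -
        Ex (fun x : Pt n => ind (on F' x) *
          ind (satB (tl Q ++ [((i : ℕ), true), ((j : ℕ), false)]) (List.ofFn x))) -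
        Ex (fun x : Pt n => ind (on F' x) *
          ind (satB (tl Q ++ [((i : ℕ), false), ((j : ℕ), true)]) (List.ofFn x))) =
        C1 F' Q i j := by
      unfold C1
      rw [← Ex_add, ← Ex_sub, ← Ex_sub]
      refine Ex_congr fun x => ?_
      simp only [satB_app, satB_cons, satB_nil, litB_ofFn, hQs x]
      cases on F' x <;> cases satT Q x <;> cases x i <;> cases x j <;> simp [ind, sg]
    unfold agr
    rw [← hC]
    push_cast
    simp only [Bool.not_true, Bool.not_false]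
    rw [abs_le] at q1 q2 q3 q4 ⊢
    rw [sub_div, add_div, add_div]
    constructor <;> nlinarith [q1.1, q1.2, q2.1, q2.2, q3.1, q3.2, q4.1, q4.2]

theorem t_LEAF (h1 : S_STAT) (h2 : S_SENS) (h3 : S_ISO) (h4 : S_BRI) (h5 : S_CNT) : S_LEAF := by
  intro k l m n e N F F' xs π T hk hl hkl hm he hN hG hπ hWf hπl hcnt hR hI hdis hFF hlen hT hTlen
  obtain ⟨i, z, hTi, hz, hflp⟩ := h2 k l m n F' hk hl hkl hm hR hlen hI T hT
  obtain ⟨Q, hQk, hQz, hKill, hQv⟩ := h3 k n F' hR T hT i z hTi hz hflp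
  obtain ⟨a, ha⟩ := Option.ne_none_iff_exists'.1 hTi
  obtain ⟨Y, hTY, hYc, hS1, hS2, hS3⟩ :=
    h1 k l m n F' T Q i a z hk hl hkl hm hR hlen hT ha hz hQz hKill
  have hdim : dimS (smp F xs) = n := dimS_smp hN F xs
  obtain ⟨hPlen, hPs, hPv⟩ := h4.1 n π hWf
  obtain ⟨P, hPd⟩ : ∃ P, P = tm n π := ⟨_, rfl⟩
  rw [← hPd] at hPlen hPs hPv hFF hdis ⊢
  have hQP : Disjoint (vars Q) (vars P) := by
    rw [Finset.disjoint_left]
    intro j hj hjP
    obtain ⟨T', hT', hTj⟩ := hQv j (mem_vars.1 hj)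
    exact Finset.disjoint_left.1 (hdis T' hT') (mem_vars.2 hTj) hjP
  have hTP : ∀ j, T j ≠ none → j ∉ vars P := fun j hj =>
    Finset.disjoint_left.1 (hdis T hT) (mem_vars.2 hj)
  have hiP : i ∉ vars P := hTP i hTi
  obtain ⟨S, hSd⟩ : ∃ S, S = smp F xs := ⟨_, rfl⟩
  have hYB : Y.card ≤ bB k n e := by
    unfold bB
    have : len T < Nat.size (8 * (k * n + 1) * e) := hTlen
    omega
  -- the numbers
  have hN' : (0 : ℝ) < N := by exact_mod_cast hN
  obtain ⟨τ, hτd⟩ : ∃ τ : ℝ, τ = 1 / (Rr k m n e : ℝ) := ⟨_, rfl⟩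
  rw [← hτd] at hG
  have hRge : 1024 * e * 2 ^ (m * tT m e) * 4 ^ (bB k n e) ≤ Rr k m n e := by
    unfold Rr
    rw [mul_assoc (1024 * e * 2 ^ (m * tT m e) * 4 ^ (bB k n e))]
    exact Nat.le_mul_of_pos_right _ (by positivity)
  have hRpos : 0 < Rr k m n e := lt_of_lt_of_le (by positivity) hRge
  have hRpos' : (0 : ℝ) < Rr k m n e := by exact_mod_cast hRpos
  have hτ0 : 0 < τ := by rw [hτd]; positivity
  have hτR : τ * (Rr k m n e : ℝ) = 1 := by rw [hτd]; field_simp
  have hRge' : 1024 * (e : ℝ) * 2 ^ (m * tT m e) * 4 ^ (bB k n e) ≤ (Rr k m n e : ℝ) := by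
    exact_mod_cast hRge
  obtain ⟨p, hpd⟩ : ∃ p : ℝ, p = (1 / 2) ^ len P := ⟨_, rfl⟩
  have hp0 : 0 < p := by rw [hpd]; positivity
  have hpD : (1 / 2) ^ (m * tT m e) ≤ p := by
    rw [hpd]
    exact pow_le_pow_of_le_one (by norm_num) (by norm_num) (by rw [hPlen]; exact hπl)
  have hp1 : p ≤ 1 := by
    rw [hpd]
    exact pow_le_one₀ (by norm_num) (by norm_num)
  have hdoff : Dep (vars P)ᶜ (fun x => ind (!(on F' x))) := dep_off fun T hT => by
    intro j hj
    rw [Finset.mem_compl]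
    exact Finset.disjoint_left.1 (hdis T hT) hj
  have hpo : Ex (fun x => ind (satT P x) * ind (!(on F' x))) = p * off F' := by
    rw [Ex_ind (dep_satT P) hdoff disjoint_compl_right, Ex_satT, hpd]
    rfl
  have hcF : |(cnt S π false : ℝ) / N - p * off F'| ≤ τ := by
    have h6 := cnt_est h4 h5 F xs τ hG π false
    rw [← hpo, hSd]
    have h7 : Ex (fun x => ind (satB π (List.ofFn x)) * ind (decide (on F x = false))) =
        Ex (fun x => ind (satT P x) * ind (!(on F' x))) := by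
      refine Ex_congr fun x => ?_
      rw [hPs]
      by_cases hx : satT P x = true
      · rw [hFF x hx]
        cases on F' x <;> simp [ind]
      · rw [Bool.not_eq_true] at hx
        rw [hx, ind_false, zero_mul, zero_mul]
    rw [h7] at h6
    exact h6
  have hcT : |(cnt S π true : ℝ) / N - (p - p * off F')| ≤ τ := by
    have h6 := cnt_est h4 h5 F xs τ hG π true
    rw [← hpo, hSd]
    have h7 : Ex (fun x => ind (satB π (List.ofFn x)) * ind (decide (on F x = true))) =
        p - Ex (fun x => ind (satT P x) * ind (!(on F' x))) := by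
      rw [hpd, ← Ex_satT P, ← Ex_sub]
      refine Ex_congr fun x => ?_
      rw [hPs]
      by_cases hx : satT P x = true
      · rw [hFF x hx, hx]
        cases on F' x <;> simp [ind]
      · rw [Bool.not_eq_true] at hx
        rw [hx, ind_false]
        ring
    rw [h7] at h6
    exact h6
  have hcnt' : ((cnt S π false : ℝ) + cnt S π true) < 8 * e * cnt S π false := by
    rw [← hSd, not_le] at hcnt
    exact_mod_cast hcnt
  have hxB : ((1 : ℝ) / 4) ^ (bB k n e) ≤ (1 / 4) ^ Y.card :=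
    pow_le_pow_of_le_one (by norm_num) (by norm_num) hYB
  obtain ⟨hM, hq⟩ := num_main e (m * tT m e) (bB k n e) (cnt S π false) (cnt S π true) N p
    (off F') τ (Rr k m n e) ((1 / 4) ^ Y.card) (sg a * C0 F' Q i) he hN hτ0 hτR hRge' hpD hp1
    (off_nonneg _) hcnt' hcF hcT hS1 hxB
  -- the estimates
  obtain ⟨hu, hv⟩ := stat_est h4 h5 F F' xs τ hG π P Q hPs hFF hdis hQP i hiP
  rw [← hpd, ← hSd] at hu
  simp only [← hpd, ← hSd] at hv
  obtain ⟨c0, hc0⟩ : ∃ c0, c0 = C0 F' Q i := ⟨_, rfl⟩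
  rw [← hc0] at hu hM hS2 hS3
  obtain ⟨u, hud⟩ : ∃ u : ℝ, u = ((cnt S (π ++ tl Q ++ [((i : ℕ), true)]) true : ℝ) -
        cnt S (π ++ tl Q ++ [((i : ℕ), false)]) true) / N := ⟨_, rfl⟩
  rw [← hud] at hu
  obtain ⟨v, hvd⟩ : ∃ v : ℕ → ℝ, v = fun j =>
      ((agr S (π ++ tl Q) i j true : ℝ) - agr S (π ++ tl Q) i j false) / N := ⟨_, rfl⟩
  have hv' : ∀ j : Fin n, j ∉ vars P → |v j - p * C1 F' Q i j| ≤ 4 * τ := by
    intro j hj
    rw [hvd]
    exact hv j hj
  have hcond : ∀ j : ℕ, adf (cnt S (π ++ tl Q ++ [((i : ℕ), true)]) true)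
      (cnt S (π ++ tl Q ++ [((i : ℕ), false)]) true) ≤
      2 * adf (agr S (π ++ tl Q) i j true) (agr S (π ++ tl Q) i j false) ↔ |u| ≤ 2 * |v j| := by
    intro j
    rw [← Nat.cast_le (α := ℝ)]
    push_cast
    rw [adf_cast, adf_cast, hud, hvd, abs_div, abs_div, abs_of_pos hN', ← mul_div_assoc,
      div_le_div_iff_of_pos_right hN']
  have hltu : cnt S (π ++ tl Q ++ [((i : ℕ), false)]) true <
      cnt S (π ++ tl Q ++ [((i : ℕ), true)]) true ↔ 0 < u := by
    rw [hud, div_pos_iff_of_pos_right hN', sub_pos, Nat.cast_lt]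
  have hltv : ∀ j : ℕ, agr S (π ++ tl Q) i j false < agr S (π ++ tl Q) i j true ↔ 0 < v j := by
    intro j
    rw [hvd]
    simp only
    rw [div_pos_iff_of_pos_right hN', sub_pos, Nat.cast_lt]
  have hu' := abs_le.1 hu
  have hda : decide (cnt S (π ++ tl Q ++ [((i : ℕ), false)]) true <
      cnt S (π ++ tl Q ++ [((i : ℕ), true)]) true) = a := by
    cases a with
    | true =>
      rw [decide_eq_true_eq, hltu]
      rw [sg_true, one_mul] at hM
      linarith [hu'.1]
    | false =>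
      rw [decide_eq_false_iff_not, hltu, not_lt]
      rw [sg_false] at hM
      linarith [hu'.2]
  have hdb : ∀ (j : Fin n) (b : Bool), j ≠ i → T j = some b →
      decide (agr S (π ++ tl Q) i j false < agr S (π ++ tl Q) i j true) = decide (b = a) := by
    intro j b hj hb
    have h6 := abs_le.1 (hv' j (hTP j (by rw [hb]; simp)))
    rw [hS2 j b hj hb] at h6
    cases a <;> cases b <;>
      simp only [sg_true, sg_false] at hM h6 <;>
      simp only [hltv, Bool.false_eq_true, Bool.true_eq_false, decide_true, decide_false,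
        decide_eq_true_eq, decide_eq_false_iff_not, not_lt] <;>
      linarith [h6.1, h6.2]
  have habs : |p * c0| = p * (sg a * c0) := by
    have h6 : 0 < p * (sg a * c0) := by linarith
    rw [← abs_of_pos h6, abs_mul, abs_mul, abs_mul, abs_sg, one_mul]
  -- the list of literals
  have hL1 : ∀ (j : Fin n) (b : Bool), j ≠ i → T j = some b →
      sv S π (tl Q) i j = b ∧ ((j : ℕ), b) ∈ lam S n π (tl Q) i := by
    intro j b hj hb
    have hsv : sv S π (tl Q) i j = b := by
      unfold sv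
      rw [hda, hdb j b hj hb]
      cases a <;> cases b <;> rfl
    refine ⟨hsv, ?_⟩
    rw [mem_lam]
    refine ⟨j.2, ?_, ?_, ?_, hsv.symm⟩
    · exact fun h => hj (Fin.ext h)
    · have h6 := hTP j (by rw [hb]; simp)
      rw [mem_vars, hPv j] at h6
      simpa using h6
    · refine (hcond j).2 ?_
      have h6 := hv' j (hTP j (by rw [hb]; simp))
      rw [hS2 j b hj hb] at h6
      have h7 : |p * (sg b * c0)| = |p * c0| := by
        rw [abs_mul, abs_mul, abs_mul, abs_sg, one_mul]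
      have h8 : |u| ≤ |p * c0| + 2 * τ := by
        have := abs_sub_abs_le_abs_sub u (p * c0)
        linarith
      have h9 : |p * c0| - 4 * τ ≤ |v j| := by
        have := abs_sub_abs_le_abs_sub (p * (sg b * c0)) (v j)
        rw [abs_sub_comm, h7] at this
        linarith
      rw [habs] at h8 h9
      linarith
  have hL2 : ∀ l ∈ lam S n π (tl Q) i, ∃ j : Fin n, l.1 = (j : ℕ) ∧ j ∈ Y ∧ j ≠ i ∧
      l.2 = sv S π (tl Q) i j := by
    intro l hl
    rw [mem_lam] at hl
    obtain ⟨h6, h7, h8, h9, h10⟩ := hl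
    refine ⟨⟨l.1, h6⟩, rfl, ?_, fun h => h7 (by rw [← h]), h10⟩
    by_contra hc
    have h11 : (⟨l.1, h6⟩ : Fin n) ∉ vars P := by
      rw [mem_vars, hPv ⟨l.1, h6⟩]
      simp only
      rw [h8]
      simp
    have h12 := hv' ⟨l.1, h6⟩ h11
    have h13 := hS3 ⟨l.1, h6⟩ hc
    have h14 := (hcond l.1).1 h9
    have h15 : |p * C1 F' Q i ⟨l.1, h6⟩| ≤ |p * c0| / 4 := by
      rw [abs_mul, abs_mul, abs_of_pos hp0, mul_div_assoc]
      exact mul_le_mul_of_nonneg_left h13 hp0.le
    have h16 : |v l.1| ≤ |p * c0| / 4 + 4 * τ := by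
      have := abs_sub_abs_le_abs_sub (v l.1) (p * C1 F' Q i ⟨l.1, h6⟩)
      simp only at h12
      linarith
    have h17 : |p * c0| - 2 * τ ≤ |u| := by
      have := abs_sub_abs_le_abs_sub (p * c0) u
      rw [abs_sub_comm] at this
      linarith
    rw [habs] at h16 h17
    linarith
  have hlen' : (lam S n π (tl Q) i).length ≤ bB k n e :=
    (lam_length S n π (tl Q) i Y fun l hl => by
      obtain ⟨j, hj1, hj2, -⟩ := hL2 l hl
      exact ⟨j, hj1, hj2⟩).trans hYB
  -- the example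
  classical
  obtain ⟨U, hU⟩ : ∃ U : Tm n, U = fun j => if j = i then none else if T j = none then
      (if ((j : ℕ), sv S π (tl Q) i j) ∈ lam S n π (tl Q) i then some (!(sv S π (tl Q) i j))
        else none) else T j := ⟨_, rfl⟩
  have hUY : vars U ⊆ Y := by
    intro j hj
    rw [mem_vars, hU] at hj
    simp only at hj
    split_ifs at hj with h6 h7 h8
    · exact absurd rfl hj
    · obtain ⟨j', h9, h10, -⟩ := hL2 _ h8
      have : j = j' := Fin.ext h9
      rw [this]
      exact h10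
    · exact absurd rfl hj
    · exact hTY (mem_vars.2 hj)
  obtain ⟨j0, hj0⟩ : ∃ j0, satT U (xs j0) = true := by
    by_contra hc
    push Not at hc
    have h6 : ∀ b, frq F xs U b = 0 := by
      intro b
      unfold frq
      rw [Finset.card_eq_zero, Finset.filter_eq_empty_iff]
      intro j _ hj
      exact hc j hj.1
    have h7 := hG U true
    have h8 := hG U false
    rw [h6 true] at h7
    rw [h6 false] at h8
    have h9 : prb F U true + prb F U false = (1 / 2) ^ len U := by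
      rw [← Ex_satT U]
      unfold prb
      rw [← Ex_add]
      refine Ex_congr fun x => ?_
      cases on F x <;> simp [ind]
    rw [Nat.cast_zero, zero_div, zero_sub, abs_neg] at h7 h8
    have h10 := (le_abs_self _).trans h7
    have h11 := (le_abs_self _).trans h8
    have h12 : ((1 : ℝ) / 4) ^ (bB k n e) ≤ (1 / 2) ^ len U := by
      refine le_trans (pow_le_pow_left₀ (by norm_num) (by norm_num : (1 : ℝ) / 4 ≤ 1 / 2) _) ?_
      exact pow_le_pow_of_le_one (by norm_num) (by norm_num)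
        ((Finset.card_le_card hUY).trans hYB)
    linarith
  have hyU : ∀ (j : Fin n) (b : Bool), U j = some b → xs j0 j = b := satT_iff.1 hj0
  refine ⟨π ++ ((i : ℕ), decide (cnt S (π ++ tl Q ++ [((i : ℕ), false)]) true <
      cnt S (π ++ tl Q ++ [((i : ℕ), true)]) true)) ::
      (lam S n π (tl Q) i).filter (fun l => litB (List.ofFn (xs j0)) l), ?_, fun x => ?_⟩
  · unfold cands
    rw [hdim, List.mem_flatMap]
    refine ⟨π, hπ, List.mem_flatMap.2 ⟨tl Q, h4.2.2.2 n k Q (by omega),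
      List.mem_flatMap.2 ⟨i, List.mem_range.2 i.2, ?_⟩⟩⟩
    unfold cds
    rw [← hSd, if_pos hlen', List.mem_map]
    refine ⟨(List.ofFn (xs j0), on F (xs j0)), ?_, rfl⟩
    rw [hSd]
    unfold smp
    rw [List.mem_ofFn]
    exact ⟨j0, rfl⟩
  · rw [satB_app, hPs, satB_cons, hda, litB_ofFn]
    congr 1
    rw [Bool.eq_iff_iff, Bool.and_eq_true, decide_eq_true_eq, satT_iff]
    unfold satB
    rw [List.all_eq_true]
    constructor
    · rintro ⟨h6, h7⟩ j b hb
      by_cases hj : j = i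
      · subst hj
        rw [ha] at hb
        rw [h6]
        exact Option.some.inj hb
      · have h8 := h7 ((j : ℕ), b) (by
          rw [List.mem_filter]
          refine ⟨(hL1 j b hj hb).2, ?_⟩
          rw [litB_ofFn, decide_eq_true_eq]
          refine hyU j b ?_
          rw [hU]
          simp only
          rw [if_neg hj, if_neg (by rw [hb]; simp), hb])
        rw [litB_ofFn, decide_eq_true_eq] at h8
        exact h8
    · intro h6
      refine ⟨h6 i a ha, fun l hl => ?_⟩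
      rw [List.mem_filter] at hl
      obtain ⟨hl1, hl2⟩ := hl
      obtain ⟨j, h7, h8, h9, h10⟩ := hL2 l hl1
      obtain ⟨l1, l2⟩ := l
      simp only at h7 h10
      subst h7
      rw [litB_ofFn, decide_eq_true_eq] at hl2 ⊢
      by_cases hTj : T j = none
      · exfalso
        have h11 := hyU j (!(sv S π (tl Q) i j)) (by
          rw [hU]
          simp only
          rw [if_neg h9, if_pos hTj, if_pos (by rw [← h10]; exact hl1)])
        rw [hl2, h10] at h11
        cases hs : sv S π (tl Q) i j <;> rw [hs] at h11 <;> simp at h11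
      · obtain ⟨b, hb⟩ := Option.ne_none_iff_exists'.1 hTj
        rw [h10, (hL1 j b h9 hb).1]
        exact h6 j b hb

end Pool.Agent.Q128.RK
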