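import Pool.Agent.Q216.RK.Basic

/-!
# The statistics at an isolated term
-/

set_option autoImplicit false

namespace Pool.Agent.Q128.RK

open Pool.Agent.Q216.RK Finset

variable {n : ℕ}

/-- the union of the literals of `Q` and `U` -/
def uni (Q U : Tm n) : Tm n := fun j => if Q j = none then U j else Q j

theorem satT_uni (Q U : Tm n) (h : ∀ j b c, Q j = some b → U j = some c → b = c) (x : Pt n) :
    satT (uni Q U) x = (satT Q x && satT U x) := by
  rw [Bool.eq_iff_iff, Bool.and_eq_true, satT_iff, satT_iff, satT_iff]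
  constructor
  · intro h1
    refine ⟨fun j b hb => h1 j b ?_, fun j b hb => ?_⟩
    · unfold uni
      rw [if_neg (by rw [hb]; simp), hb]
    · by_cases hq : Q j = none
      · exact h1 j b (by unfold uni; rw [if_pos hq, hb])
      · obtain ⟨c, hc⟩ := Option.ne_none_iff_exists'.1 hq
        rw [← h j c b hc hb]
        exact h1 j c (by unfold uni; rw [if_neg hq, hc])
  · rintro ⟨h1, h2⟩ j b hb
    unfold uni at hb
    split_ifs at hb with hq
    · exact h2 j b hb
    · exact h1 j b hb

theorem vars_uni (Q U : Tm n) : vars (uni Q U) = vars Q ∪ vars U := by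
  ext j
  rw [Finset.mem_union, mem_vars, mem_vars, mem_vars]
  unfold uni
  by_cases hq : Q j = none
  · rw [if_pos hq]
    simp [hq]
  · rw [if_neg hq]
    simp [hq]

theorem t_STAT (h1 : S_PIV) (h2 : S_LOW) (h3 : S_UP) (h4 : S_CL) : S_STAT := by
  intro k l m n F T Q i a z hk hl hkl hm hR hlen hT hTi hz hQz hK
  obtain ⟨Y, hAY, hYc, hY⟩ := h4 k l m n F hk hl hm hR hlen (vars T ∪ vars Q)
  have hTY : vars T ⊆ Y := (Finset.subset_union_left).trans hAY
  have hQY : vars Q ⊆ Y := (Finset.subset_union_right).trans hAY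
  -- the union of `Q` and `T ∖ i`
  have hcut : ∀ j c, (cut T {i}) j = some c → j ≠ i ∧ T j = some c := by
    intro j c hc
    unfold cut at hc
    split_ifs at hc with hj
    exact ⟨fun h => hj (by simp [h]), hc⟩
  have hTz : satT T z = true := (hz T hT).2 rfl
  have hcons : ∀ j b c, Q j = some b → (cut T {i}) j = some c → b = c := by
    intro j b c hb hc
    rw [← satT_iff.1 hQz j b hb, ← satT_iff.1 hTz j c (hcut j c hc).2]
  set R : Tm n := uni Q (cut T {i}) with hRd
  have hRs : ∀ x, satT R x = (satT Q x && satT (cut T {i}) x) := satT_uni Q _ hcons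
  have hRY : vars R ⊆ Y := by
    rw [hRd, vars_uni, vars_cut]
    exact Finset.union_subset hQY (Finset.sdiff_subset.trans hTY)
  have hcutz : satT (cut T {i}) z = true := by
    rw [satT_iff]
    intro j c hc
    exact satT_iff.1 hTz j c (hcut j c hc).2
  have hRz : satT R z = true := by
    rw [hRs, hQz, hcutz]
    rfl
  -- the terms without `i`
  set F0 : Finset (Tm n) := F.filter (fun T' => T' i = none) with hF0
  have hF0F : F0 ⊆ F := Finset.filter_subset _ _
  have hlm : l ≤ m := by nlinarith
  have hlen0 : ∀ T' ∈ F0, l ≤ len T' := fun T' h => hlm.trans (hlen T' (hF0F h))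
  have hY0 : ∀ T' ∈ F0, vars T' ⊆ Y ∨ l ≤ (vars T' \ Y).card := fun T' h => hY T' (hF0F h)
  have hz0 : on F0 z = false := by
    rw [on_false_iff]
    intro T' h
    rw [← Bool.not_eq_true]
    intro h5
    have h6 : T' = T := (hz T' (hF0F h)).1 h5
    have h7 := (Finset.mem_filter.1 h).2
    rw [h6, hTi] at h7
    exact absurd h7 (by simp)
  set E0 : ℝ := Ex (fun x => ind (satT R x) * ind (!(on F0 x))) with hE0
  have hE0n : 0 ≤ E0 := Ex_nonneg fun x => mul_nonneg (ind_nonneg _) (ind_nonneg _)
  have hlow : (1 / 4) ^ Y.card * off F0 ≤ E0 :=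
    h2 k l n F0 Y R z (hR.mono hF0F) hlen0 hkl hY0 hRY hRz hz0
  have hoff : off F ≤ off F0 := off_anti hF0F
  have hp : ∀ h : Pt n → ℝ, (∀ x, h (flp x i) = h x) →
      Ex (fun x => ind (on F x) * ind (satT Q x) * (sg (x i) * h x)) =
        sg a / 2 * Ex (fun x => ind (satT R x) * ind (!(on F0 x)) * h x) := by
    intro h hh
    rw [h1 n F T Q i a h hT hTi hK hh]
    congr 1
    refine Ex_congr fun x => ?_
    rw [hRs, ind_and]
  have hC0 : C0 F Q i = sg a / 2 * E0 := by
    have h5 := hp (fun _ => 1) (fun _ => rfl)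
    simp only [mul_one] at h5
    exact h5
  have hC1 : ∀ j, j ≠ i → C1 F Q i j =
      sg a / 2 * Ex (fun x => ind (satT R x) * ind (!(on F0 x)) * sg (x j)) := by
    intro j hj
    exact hp (fun x => sg (x j)) (fun x => by rw [flp_of_ne x hj])
  refine ⟨Y, hTY, ?_, ?_, ?_, ?_⟩
  · refine hYc.trans (Nat.mul_le_mul_left 4 ?_)
    exact Finset.card_union_le _ _
  · have h5 : sg a * C0 F Q i = 1 / 2 * E0 := by
      rw [hC0]
      have := sg_mul_self a
      calc sg a * (sg a / 2 * E0) = (sg a * sg a) * E0 / 2 := by ring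
        _ = 1 / 2 * E0 := by rw [this]; ring
    rw [h5, mul_assoc]
    refine mul_le_mul_of_nonneg_left (le_trans ?_ hlow) (by norm_num)
    exact mul_le_mul_of_nonneg_left hoff (by positivity)
  · intro j b hj hb
    rw [hC1 j hj, hC0]
    have h5 : Ex (fun x => ind (satT R x) * ind (!(on F0 x)) * sg (x j)) = E0 * sg b := by
      rw [hE0, ← Ex_mul_right]
      refine Ex_congr fun x => ?_
      by_cases hx : satT R x = true
      · have h6 : satT (cut T {i}) x = true := by
          rw [hRs, Bool.and_eq_true] at hx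
          exact hx.2
        have h7 : x j = b := satT_iff.1 h6 j b (by
          unfold cut
          rw [if_neg (by simpa using hj), hb])
        rw [h7]
      · rw [Bool.not_eq_true] at hx
        rw [hx, ind_false]
        ring
    rw [h5]
    ring
  · intro j hj
    have hji : j ≠ i := by
      rintro rfl
      exact hj (hTY (mem_vars.2 (by rw [hTi]; simp)))
    rw [hC1 j hji, hC0, abs_mul, abs_mul, abs_of_nonneg hE0n]
    have h5 := h3 k l n F0 Y R j (hR.mono hF0F) hkl hY0 hRY hj
    have h6 : (0 : ℝ) ≤ |sg a / 2| := abs_nonneg _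
    calc |sg a / 2| * |Ex (fun x => ind (satT R x) * ind (!(on F0 x)) * sg (x j))|
        ≤ |sg a / 2| * (1 / 4 * E0) := mul_le_mul_of_nonneg_left h5 h6
      _ = |sg a / 2| * E0 / 4 := by ring

end Pool.Agent.Q128.RK
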